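import Mathlib
import Pool.Agent.RootSep.Main

namespace Pool.Agent.Results.MP_418077_nt.LinearRate

open Pool.Agent.RootSep

/-- For every fixed height, the minimal root separation decays at least exponentially in the
degree: `L, L₀ ≤ 2 (7/8)^(n-1)` for every `H ≥ 1`, and `L*, L₀* ≤ 2 (7/8)^n` for every `H ≥ 2`. -/
theorem result :
    (∀ n H : ℕ, 36 ≤ n → 1 ≤ H →
      (0 < L n H ∧ L n H ≤ 2 * (7 / 8) ^ (n - 1)) ∧
      (0 < L0 n H ∧ L0 n H ≤ 2 * (7 / 8) ^ (n - 1))) ∧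
    (∀ n H : ℕ, 35 ≤ n → 2 ≤ H →
      (0 < Lirr n H ∧ Lirr n H ≤ 2 * (7 / 8) ^ n) ∧
      (0 < L0irr n H ∧ L0irr n H ≤ 2 * (7 / 8) ^ n)) :=
  Pool.Agent.RootSep.main

end Pool.Agent.Results.MP_418077_nt.LinearRate
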